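import Mathlib
import Pool.Agent.P.MP_03f7b8_gt.Main

/-!
Spaces with a base of subinfinite rank, with no separation axiom assumed:
such a space is metacompact exactly when the closure of each point is compact.
So every T1 space with such a base is metacompact, and some T0 space with such a base is not.
-/

open Set TopologicalSpace

namespace Pool.Agent.Old.MP_03f7b8_gt.PointClosures

universe u

/-- No member of the family is contained in a different member. -/
def Incomparable {X : Type u} (H : Set (Set X)) : Prop :=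
  ∀ A ∈ H, ∀ B ∈ H, A ≠ B → ¬ A ⊆ B ∧ ¬ B ⊆ A

/-- Every incomparable subfamily with nonempty intersection is finite. -/
def SubinfiniteRank {X : Type u} (G : Set (Set X)) : Prop :=
  ∀ H ⊆ G, Incomparable H → (⋂₀ H).Nonempty → H.Finite

/-- Every open cover has a point-finite open refinement. -/
def Metacompact (X : Type u) [TopologicalSpace X] : Prop :=
  ∀ U : Set (Set X), (∀ u ∈ U, IsOpen u) → ⋃₀ U = univ →
    ∃ V : Set (Set X), (∀ v ∈ V, IsOpen v) ∧ ⋃₀ V = univ ∧ (∀ v ∈ V, ∃ u ∈ U, v ⊆ u) ∧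
      ∀ x : X, {v ∈ V | x ∈ v}.Finite

theorem main_iff (X : Type u) [TopologicalSpace X] (G : Set (Set X)) (hb : IsTopologicalBasis G)
    (hG : SubinfiniteRank G) : Metacompact X ↔ ∀ x : X, IsCompact (closure ({x} : Set X)) := by
  constructor
  · intro h x
    refine Pool.Agent.P.MP_03f7b8_gt.isCompact_closure_singleton (fun U hU => ?_) x
    obtain ⟨V, h1, h2, h3, h4⟩ := h U hU.1 hU.2
    exact ⟨V, ⟨h1, h2⟩, h3, h4⟩
  · intro hc U h1 h2
    obtain ⟨V, hV, h3, h4⟩ := Pool.Agent.P.MP_03f7b8_gt.exists_pf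
      (fun U hU => Pool.Agent.P.MP_03f7b8_gt.exists_wref hb hG hc hU) (U := U) ⟨h1, h2⟩
    exact ⟨V, hV.1, hV.2, h3, h4⟩

theorem example_omega : ∃ (X : Type) (_ : TopologicalSpace X) (G : Set (Set X)),
    T0Space X ∧ IsTopologicalBasis G ∧ SubinfiniteRank G ∧ ¬ Metacompact X := by
  let t : TopologicalSpace ℕ := Topology.lowerSet ℕ
  have hopen : ∀ s : Set ℕ, @IsOpen ℕ t s ↔ IsLowerSet s := fun s => Iff.rfl
  refine ⟨ℕ, t, range (fun n => Iic n), ?_, ?_, ?_, ?_⟩
  · refine (@t0Space_iff_exists_isOpen_xor_mem ℕ t).2 ?_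
    intro x y hxy
    rcases lt_or_gt_of_ne hxy with h | h
    · exact ⟨Iic x, (hopen _).2 (isLowerSet_Iic x), Or.inl ⟨le_refl x, not_le.2 h⟩⟩
    · exact ⟨Iic y, (hopen _).2 (isLowerSet_Iic y), Or.inr ⟨le_refl y, not_le.2 h⟩⟩
  · refine @isTopologicalBasis_of_isOpen_of_nhds ℕ t _ ?_ ?_
    · rintro _ ⟨n, rfl⟩
      exact (hopen _).2 (isLowerSet_Iic n)
    · intro a u ha hu
      exact ⟨Iic a, ⟨a, rfl⟩, le_refl a, fun b hb => (hopen u).1 hu hb ha⟩
  · intro H hH hinc _
    refine Set.Subsingleton.finite ?_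
    intro A hA B hB
    by_contra hne
    obtain ⟨a, rfl⟩ := hH hA
    obtain ⟨b, rfl⟩ := hH hB
    rcases le_total a b with h | h
    · exact (hinc _ hA _ hB hne).1 (Iic_subset_Iic.2 h)
    · exact (hinc _ hA _ hB hne).2 (Iic_subset_Iic.2 h)
  · intro h
    obtain ⟨V, hVo, hVc, hVr, hVf⟩ := h (range (fun n => Iic n))
      (by rintro _ ⟨n, rfl⟩; exact (hopen _).2 (isLowerSet_Iic n))
      (eq_univ_of_forall (fun n => ⟨Iic n, ⟨n, rfl⟩, le_refl n⟩))
    have hfin : (⋃₀ {v ∈ V | 0 ∈ v}).Finite := by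
      refine (hVf 0).sUnion (fun v hv => ?_)
      obtain ⟨_, ⟨n, rfl⟩, hvu⟩ := hVr v hv.1
      exact (finite_Iic n).subset hvu
    refine infinite_univ (hfin.subset (fun n _ => ?_))
    obtain ⟨v, hv, hn⟩ : n ∈ ⋃₀ V := hVc ▸ mem_univ n
    exact ⟨v, ⟨hv, (hopen v).1 (hVo v hv) (Nat.zero_le n) hn⟩, hn⟩

theorem result :
    (∀ (X : Type u) [TopologicalSpace X] (G : Set (Set X)),
      IsTopologicalBasis G → SubinfiniteRank G →
        (Metacompact X ↔ ∀ x : X, IsCompact (closure ({x} : Set X)))) ∧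
    (∀ (X : Type u) [TopologicalSpace X] [T1Space X] (G : Set (Set X)),
      IsTopologicalBasis G → SubinfiniteRank G → Metacompact X) ∧
    (∃ (X : Type) (_ : TopologicalSpace X) (G : Set (Set X)),
      T0Space X ∧ IsTopologicalBasis G ∧ SubinfiniteRank G ∧ ¬ Metacompact X) := by
  refine ⟨main_iff, ?_, example_omega⟩
  intro X _ _ G hb hG
  refine (main_iff X G hb hG).2 (fun x => ?_)
  rw [closure_singleton]
  exact isCompact_singleton

end Pool.Agent.Old.MP_03f7b8_gt.PointClosures
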